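import Pool.Agent.H87.EBK.Stmts2

/-! # Row CON of the board `ebs`: continuity of monomials -/

set_option autoImplicit false

namespace Pool.EBK

theorem con : CON := by
  intro W V _ _ φ y ε hy hε
  classical
  have : Fintype V := Fintype.ofFinite V
  have hc : ContinuousAt (fun (l : W → ℝ) (u : V) => ∏ a, l a ^ (φ u a)) y := by
    rw [continuousAt_pi]
    intro u
    refine tendsto_finsetProd _ ?_
    intro a _
    exact ((continuousAt_apply a y).zpow₀ (φ u a) (Or.inl (hy a).ne'))
  obtain ⟨δ, hδ, h⟩ := Metric.continuousAt_iff.1 hc ε hε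
  refine ⟨δ, hδ, ?_⟩
  intro l hl u
  have h1 : dist l y < δ := by
    rw [dist_pi_lt_iff hδ]
    intro a
    rw [Real.dist_eq]
    exact hl a
  have h2 := (dist_pi_lt_iff hε).1 (h h1) u
  rw [Real.dist_eq] at h2
  exact h2

end Pool.EBK
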